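import Mathlib
import Pool.Agent.H892.ZL.Stm

set_option autoImplicit false

namespace Pool.Agent.H729.ZL

open Matrix Pool.Agent.H892.ZL

theorem t_LA2 : S_LA2 := by
  intro F _ X hX
  have hinj : LinearMap.ker (Matrix.mulVecLin Xᵀ) = ⊥ := by
    rw [LinearMap.ker_eq_bot]
    have h1 : Function.Injective Xᵀ.mulVec := by
      rw [Matrix.mulVec_injective_iff]
      exact hX
    exact h1
  obtain ⟨g, hg⟩ := LinearMap.exists_leftInverse_of_injective (Matrix.mulVecLin Xᵀ) hinj
  refine ⟨LinearMap.toMatrix' g, ?_⟩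
  have h2 : LinearMap.toMatrix' g * Xᵀ = 1 := by
    have h3 : LinearMap.toMatrix' (g ∘ₗ Matrix.mulVecLin Xᵀ) =
        LinearMap.toMatrix' g * LinearMap.toMatrix' (Matrix.mulVecLin Xᵀ) :=
      LinearMap.toMatrix'_comp _ _
    rw [hg, LinearMap.toMatrix'_id, ← Matrix.toLin'_apply', LinearMap.toMatrix'_toLin'] at h3
    exact h3.symm
  rw [h2, Matrix.det_one]
  exact one_ne_zero

end Pool.Agent.H729.ZL
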