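import Mathlib
import Pool.Agent.H892.ZL.Stm

set_option autoImplicit false

namespace Pool.Agent.H729.ZL

open MvPolynomial Matrix Pool.Agent.H892.ZL

lemma sc_aeval {E : Type*} [CommRing E] [Algebra ℂ E] {A : MvPolynomial (Fin 6) ℂ} {n : ℕ}
    (hA : A.IsHomogeneous n) (t : E) (P : Fin 6 → E) :
    aeval (t • P) A = t ^ n * aeval P A := by
  rw [aeval_def, aeval_def, eval₂_eq', eval₂_eq', Finset.mul_sum]
  refine Finset.sum_congr rfl fun d hd => ?_
  have h1 : d.degree = n := by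
    by_contra hc
    exact (mem_support_iff.1 hd) (hA.coeff_eq_zero hc)
  have h2 : ∏ i, (t • P) i ^ d i = t ^ n * ∏ i, P i ^ d i := by
    have h3 : ∀ i, (t • P) i ^ d i = t ^ d i * P i ^ d i := by
      intro i
      rw [Pi.smul_apply, smul_eq_mul, mul_pow]
    rw [Finset.prod_congr rfl fun i _ => h3 i, Finset.prod_mul_distrib, Finset.prod_pow_eq_pow_sum,
      ← h1, Finsupp.degree_eq_sum]
  rw [h2]
  ring

lemma sc_grad {E : Type*} [CommRing E] [Algebra ℂ E] {A : MvPolynomial (Fin 6) ℂ} {n : ℕ}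
    (hA : A.IsHomogeneous n) (t : E) (P : Fin 6 → E) :
    grad A (t • P) = t ^ (n - 1) • grad A P := by
  funext j
  unfold grad
  rw [sc_aeval hA.pderiv]
  rfl

lemma sc_Gp : Gp.IsHomogeneous 2 := by
  unfold Gp
  exact (((isHomogeneous_X ℂ 0).mul (isHomogeneous_X ℂ 5)).sub
    ((isHomogeneous_X ℂ 1).mul (isHomogeneous_X ℂ 4))).add
    ((isHomogeneous_X ℂ 2).mul (isHomogeneous_X ℂ 3))

lemma sc_D6 {E : Type*} [CommRing E] (L : Matrix (Fin 4) (Fin 6) E) (D : Matrix (Fin 2) (Fin 2) E)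
    (Y : Matrix (Fin 2) (Fin 6) E) : D6 L (D * Y) = D.det * D6 L Y := by
  unfold D6
  have h1 : Matrix.fromRows L (D * Y) =
      Matrix.fromBlocks (1 : Matrix (Fin 4) (Fin 4) E) 0 0 D * Matrix.fromRows L Y := by
    rw [Matrix.fromBlocks_mul_fromRows]
    simp
  rw [h1, Matrix.submatrix_mul _ _ id id _ Function.bijective_id, Matrix.submatrix_id_id,
    Matrix.det_mul, Matrix.det_fromBlocks_zero₂₁, Matrix.det_one, one_mul]

/-- the lower triangular matrix -/
def scM {E : Type*} [Field E] (t : E) (u : Fin 3 → E) : Matrix (Fin 4) (Fin 4) E :=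
  !![t, 0, 0, 0; u 0, t, 0, 0; u 1, 0, t, 0; u 2, 0, 0, t]

lemma scM_det {E : Type*} [Field E] (t : E) (u : Fin 3 → E) : (scM t u).det = t ^ 4 := by
  have h : (scM t u).BlockTriangular OrderDual.toDual := by
    intro i j hij
    have hij' : i < j := hij
    fin_cases i <;> fin_cases j <;> first | rfl | (exfalso; revert hij'; decide)
  have h2 := Matrix.det_of_isLowerTriangular _ h
  rw [h2, Fin.prod_univ_four]
  simp [scM]
  ring

lemma sc_XX {E : Type*} [Field E] [Algebra ℂ E] (δ : Fin 3 → Derivation ℂ E E) (t : E)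
    (P : Fin 6 → E) : XX δ (t • P) = scM t (fun i => δ i t) * XX δ P := by
  have key : ∀ (i : Fin 3) (j : Fin 6), δ i ((t • P) j) = δ i t * P j + t * δ i (P j) := by
    intro i j
    rw [Pi.smul_apply, smul_eq_mul, Derivation.leibniz, smul_eq_mul, smul_eq_mul]
    ring
  have x0 : ∀ (p : Fin 6 → E) (j : Fin 6), XX δ p 0 j = p j := fun _ _ => rfl
  have xs : ∀ (p : Fin 6 → E) (i : Fin 3) (j : Fin 6), XX δ p i.succ j = δ i (p j) :=
    fun _ _ _ => rfl
  ext i j
  rw [Matrix.mul_apply, Fin.sum_univ_succ]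
  simp only [xs, x0]
  refine Fin.cases ?_ (fun i => ?_) i
  · rw [x0, Fin.sum_univ_three]
    simp [scM]
  · rw [xs, key i j, Fin.sum_univ_three]
    fin_cases i <;> simp [scM]

lemma sc_YY {E : Type*} [Field E] [Algebra ℂ E] {K : MvPolynomial (Fin 6) ℂ}
    (hK : K.IsHomogeneous 3) (t : E) (P : Fin 6 → E) :
    YY K (t • P) = Matrix.diagonal ![t, t ^ 2] * YY K P := by
  have h1 := sc_grad sc_Gp t P
  have h2 := sc_grad hK t P
  ext i j
  rw [Matrix.diagonal_mul]
  fin_cases i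
  · have := congrFun h1 j
    simpa [YY] using this
  · have := congrFun h2 j
    simpa [YY] using this

theorem t_SC : S_SC := by
  intro E _ _ δ K P w t hK hW ht L
  have h1 := hW L
  rw [sc_XX, Matrix.transpose_mul, ← Matrix.mul_assoc, Matrix.det_mul, Matrix.det_transpose,
    scM_det, h1, sc_YY hK, sc_D6, Matrix.det_diagonal, Fin.prod_univ_two]
  simp only [Matrix.cons_val_zero, Matrix.cons_val_one]
  ring

end Pool.Agent.H729.ZL
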